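import Mathlib

set_option autoImplicit false

open scoped ENNReal

namespace Pool.Agent.MP_d3a611_gt

/-- The discrete Heisenberg group `H`: the group of `3 × 3` upper triangular integer matrices
with all diagonal entries equal to `1`, as a subgroup of `SL(3, ℤ)`. -/
def Heisenberg : Subgroup (Matrix.SpecialLinearGroup (Fin 3) ℤ) where
  carrier := {A | (∀ i, A i i = 1) ∧ ∀ i j, j < i → A i j = 0}
  mul_mem' := by
    rintro A B ⟨hA1, hA0⟩ ⟨hB1, hB0⟩
    refine ⟨?_, ?_⟩
    · intro i
      have a10 := hA0 1 0 (by decide)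
      have a20 := hA0 2 0 (by decide)
      have a21 := hA0 2 1 (by decide)
      have b10 := hB0 1 0 (by decide)
      have b20 := hB0 2 0 (by decide)
      have b21 := hB0 2 1 (by decide)
      have ha0 := hA1 0
      have ha1 := hA1 1
      have ha2 := hA1 2
      have hb0 := hB1 0
      have hb1 := hB1 1
      have hb2 := hB1 2
      fin_cases i <;>
        simp [Matrix.SpecialLinearGroup.coe_mul, Matrix.mul_apply, Fin.sum_univ_three, *]
    · intro i j hij
      have a10 := hA0 1 0 (by decide)
      have a20 := hA0 2 0 (by decide)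
      have a21 := hA0 2 1 (by decide)
      have b10 := hB0 1 0 (by decide)
      have b20 := hB0 2 0 (by decide)
      have b21 := hB0 2 1 (by decide)
      fin_cases i <;> fin_cases j <;>
        simp_all [Matrix.SpecialLinearGroup.coe_mul, Matrix.mul_apply, Fin.sum_univ_three]
  one_mem' := by
    refine ⟨fun i => by simp, fun i j hij => ?_⟩
    simp [hij.ne']
  inv_mem' := by
    rintro A ⟨hA1, hA0⟩
    have a10 := hA0 1 0 (by decide)
    have a20 := hA0 2 0 (by decide)
    have a21 := hA0 2 1 (by decide)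
    have ha0 := hA1 0
    have ha1 := hA1 1
    have ha2 := hA1 2
    refine ⟨?_, ?_⟩
    · intro i
      rw [Matrix.SpecialLinearGroup.coe_inv, Matrix.adjugate_fin_three]
      fin_cases i <;> simp [*]
    · intro i j hij
      rw [Matrix.SpecialLinearGroup.coe_inv, Matrix.adjugate_fin_three]
      fin_cases i <;> fin_cases j <;> simp_all

/-- `μ_x`: the mass function of the uniform probability measure on the neighbours of the
vertex `x` of the locally finite graph `G`. -/
noncomputable def nbrMass {V : Type*} (G : SimpleGraph V) (x v : V) : ℝ≥0∞ :=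
  open Classical in if G.Adj x v then ((Nat.card (G.neighborSet x) : ℕ) : ℝ≥0∞)⁻¹ else 0

/-- `ξ` is the mass function of a coupling of the measures with mass functions `μ` and `ν`. -/
def IsCoupling {V : Type*} (ξ : V → V → ℝ≥0∞) (μ ν : V → ℝ≥0∞) : Prop :=
  (∀ a, ∑' b, ξ a b = μ a) ∧ (∀ b, ∑' a, ξ a b = ν b)

/-- The `L¹` Wasserstein distance `W₁(μ, ν)` with respect to the graph metric of `G`: the
infimum, over all couplings `ξ` of `μ` and `ν`, of the transport cost `∑ ξ(a, b) d(a, b)`. -/
noncomputable def W1 {V : Type*} (G : SimpleGraph V) (μ ν : V → ℝ≥0∞) : ℝ≥0∞ :=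
  ⨅ (ξ : V → V → ℝ≥0∞) (_ : IsCoupling ξ μ ν), ∑' a, ∑' b, ξ a b * (G.dist a b : ℝ≥0∞)

/-- The Ollivier–Ricci curvature `κ(x, y) = 1 - W₁(μ_x, μ_y) / d(x, y)`. -/
noncomputable def kappa {V : Type*} (G : SimpleGraph V) (x y : V) : ℝ :=
  1 - (W1 G (nbrMass G x) (nbrMass G y)).toReal / (G.dist x y : ℝ)

end Pool.Agent.MP_d3a611_gt
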