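import Mathlib
import Pool.Agent.MP_d3a611_gt.Defs

set_option autoImplicit false

open scoped ENNReal

namespace Pool.Agent.MP_d3a611_gt

/-! ### General facts -/

section general

variable {V : Type*} {G : SimpleGraph V}

lemma walk_le {f : V → ℝ≥0∞} (hf : ∀ a b, G.Adj a b → f b ≤ f a + 1) {a b : V}
    (p : G.Walk a b) : f b ≤ f a + p.length := by
  induction p with
  | nil => simp
  | @cons u v w h p ih =>
    calc f w ≤ f v + p.length := ih
      _ ≤ (f u + 1) + p.length := by gcongr; exact hf _ _ h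
      _ = f u + ((SimpleGraph.Walk.cons h p).length : ℕ) := by
        rw [SimpleGraph.Walk.length_cons]; push_cast; ring

lemma dist_bound (hG : G.Connected) {f : V → ℝ≥0∞} (hf : ∀ a b, G.Adj a b → f b ≤ f a + 1)
    (a b : V) : f b ≤ f a + (G.dist a b : ℝ≥0∞) := by
  obtain ⟨p, hp⟩ := hG.exists_walk_length_eq_dist a b
  rw [← hp]
  exact walk_le hf p

lemma dual_ineq (hG : G.Connected) {f : V → ℝ≥0∞} (hf : ∀ a b, G.Adj a b → f b ≤ f a + 1)
    {μ ν : V → ℝ≥0∞} {ξ : V → V → ℝ≥0∞} (hξ : IsCoupling ξ μ ν) :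
    ∑' b, ν b * f b ≤ ∑' a, μ a * f a + ∑' a, ∑' b, ξ a b * (G.dist a b : ℝ≥0∞) := by
  calc ∑' b, ν b * f b = ∑' b, ∑' a, ξ a b * f b := by
        congr 1; ext b; rw [← hξ.2 b, ENNReal.tsum_mul_right]
    _ ≤ ∑' b, ∑' a, (ξ a b * f a + ξ a b * (G.dist a b : ℝ≥0∞)) := by
        refine ENNReal.tsum_le_tsum fun b => ENNReal.tsum_le_tsum fun a => ?_
        rw [← mul_add]
        exact mul_le_mul_right (dist_bound hG hf a b) _
    _ = ∑' a, ∑' b, (ξ a b * f a + ξ a b * (G.dist a b : ℝ≥0∞)) := ENNReal.tsum_comm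
    _ = ∑' a, μ a * f a + ∑' a, ∑' b, ξ a b * (G.dist a b : ℝ≥0∞) := by
        rw [← ENNReal.tsum_add]
        congr 1; ext a
        rw [ENNReal.tsum_add, ENNReal.tsum_mul_right, hξ.1 a]

lemma dual_W1 (hG : G.Connected) {f : V → ℝ≥0∞} (hf : ∀ a b, G.Adj a b → f b ≤ f a + 1)
    {μ ν : V → ℝ≥0∞} : ∑' b, ν b * f b ≤ ∑' a, μ a * f a + W1 G μ ν := by
  unfold W1
  rw [ENNReal.add_iInf]
  refine le_iInf fun ξ => ?_
  by_cases h : IsCoupling ξ μ ν
  · simp only [h, iInf_pos]
    exact dual_ineq hG hf h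
  · simp [h]

end general

/-! ### Cayley graphs -/

section cayley

variable {Γ : Type*} [Group Γ] {S : Finset Γ}

lemma adj_iff (h1 : (1 : Γ) ∉ S) (hsymm : ∀ s ∈ S, s⁻¹ ∈ S) (x y : Γ) :
    (SimpleGraph.mulCayley (S : Set Γ)).Adj x y ↔ x⁻¹ * y ∈ S := by
  rw [SimpleGraph.mulCayley_adj]
  constructor
  · rintro ⟨_, h | h⟩
    · exact h
    · have := hsymm _ h
      simpa using this
  · intro h
    refine ⟨?_, Or.inl h⟩
    rintro rfl
    simp at h
    exact h1 h

lemma connected (hgen : Subgroup.closure (S : Set Γ) = ⊤)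
    (h1 : (1 : Γ) ∉ S) (hsymm : ∀ s ∈ S, s⁻¹ ∈ S) :
    (SimpleGraph.mulCayley (S : Set Γ)).Connected := by
  have key : ∀ g ∈ Subgroup.closure (S : Set Γ), ∀ x : Γ,
      (SimpleGraph.mulCayley (S : Set Γ)).Reachable x (x * g) := by
    intro g hg
    induction hg using Subgroup.closure_induction with
    | mem s hs =>
      intro x
      apply SimpleGraph.Adj.reachable
      rw [adj_iff h1 hsymm]
      simpa using hs
    | one => intro x; simp
    | mul a b _ _ ha hb =>
      intro x
      rw [← mul_assoc]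
      exact (ha x).trans (hb (x * a))
    | inv a _ ha =>
      intro x
      have := ha (x * a⁻¹)
      simp at this
      exact this.symm
  have : Nonempty Γ := ⟨1⟩
  refine SimpleGraph.Connected.mk ?_
  intro x y
  have := key (x⁻¹ * y) (by rw [hgen]; trivial) x
  simpa using this

lemma nbrMass_eq (h1 : (1 : Γ) ∉ S) (hsymm : ∀ s ∈ S, s⁻¹ ∈ S) (x v : Γ) :
    nbrMass (SimpleGraph.mulCayley (S : Set Γ)) x v =
      open Classical in if x⁻¹ * v ∈ S then ((S.card : ℕ) : ℝ≥0∞)⁻¹ else 0 := by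
  classical
  unfold nbrMass
  have hcard : Nat.card ((SimpleGraph.mulCayley (S : Set Γ)).neighborSet x) = S.card := by
    have e : (SimpleGraph.mulCayley (S : Set Γ)).neighborSet x ≃ S :=
      { toFun := fun v => ⟨x⁻¹ * v.1, (adj_iff h1 hsymm x v.1).1 v.2⟩
        invFun := fun s => ⟨x * s.1, by
          show (SimpleGraph.mulCayley (S : Set Γ)).Adj x (x * s.1)
          rw [adj_iff h1 hsymm]; simp⟩
        left_inv := fun v => by ext; simp
        right_inv := fun s => by ext; simp }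
    rw [Nat.card_congr e]
    simp
  rw [hcard]
  simp only [adj_iff h1 hsymm]

lemma tsum_nbrMass (h1 : (1 : Γ) ∉ S) (hsymm : ∀ s ∈ S, s⁻¹ ∈ S) (x : Γ) (f : Γ → ℝ≥0∞) :
    ∑' v, nbrMass (SimpleGraph.mulCayley (S : Set Γ)) x v * f v =
      ((S.card : ℕ) : ℝ≥0∞)⁻¹ * ∑ s ∈ S, f (x * s) := by
  classical
  have : ∑' v, nbrMass (SimpleGraph.mulCayley (S : Set Γ)) x v * f v =
      ∑' s, nbrMass (SimpleGraph.mulCayley (S : Set Γ)) x (x * s) * f (x * s) :=
    ((Equiv.mulLeft x).tsum_eq (fun v => nbrMass (SimpleGraph.mulCayley (S : Set Γ)) x v * f v)).symm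
  rw [this]
  simp only [nbrMass_eq h1 hsymm, inv_mul_cancel_left, ite_mul, zero_mul]
  rw [tsum_eq_sum (s := S) (by intro b hb; simp [hb]), Finset.mul_sum]
  refine Finset.sum_congr rfl fun s hs => by simp [hs]

/-- One step of the averaging operator of simple random walk. -/
noncomputable def avg (S : Finset Γ) (f : Γ → ℝ) (g : Γ) : ℝ :=
  (∑ s ∈ S, f (g * s)) / S.card

/-- `f` increases by at most `1` along each edge. -/
def Lip (S : Finset Γ) (f : Γ → ℝ) : Prop := ∀ g, ∀ s ∈ S, f (g * s) ≤ f g + 1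

lemma W1_ne_top (h1 : (1 : Γ) ∉ S) (hsymm : ∀ s ∈ S, s⁻¹ ∈ S) (hS : S.Nonempty) (x y : Γ) :
    W1 (SimpleGraph.mulCayley (S : Set Γ)) (nbrMass (SimpleGraph.mulCayley (S : Set Γ)) x)
      (nbrMass (SimpleGraph.mulCayley (S : Set Γ)) y) ≠ ⊤ := by
  classical
  set G := SimpleGraph.mulCayley (S : Set Γ) with hGdef
  have hc0 : ((S.card : ℕ) : ℝ≥0∞) ≠ 0 := by
    simp [hS.ne_empty]
  have hct : ((S.card : ℕ) : ℝ≥0∞) ≠ ⊤ := by simp
  have htot : ∀ x, ∑' v, nbrMass G x v = 1 := by
    intro x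
    have := tsum_nbrMass h1 hsymm x (fun _ => (1 : ℝ≥0∞))
    simp only [mul_one, Finset.sum_const, nsmul_eq_mul] at this
    rw [this, ENNReal.inv_mul_cancel hc0 hct]
  have hcoup : IsCoupling (fun a b => nbrMass G x a * nbrMass G y b) (nbrMass G x)
      (nbrMass G y) := by
    refine ⟨fun a => ?_, fun b => ?_⟩
    · rw [ENNReal.tsum_mul_left, htot, mul_one]
    · rw [ENNReal.tsum_mul_right, htot, one_mul]
  have hle : W1 G (nbrMass G x) (nbrMass G y) ≤
      ∑' a, ∑' b, (nbrMass G x a * nbrMass G y b) * (G.dist a b : ℝ≥0∞) :=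
    iInf₂_le (fun a b => nbrMass G x a * nbrMass G y b) hcoup
  refine ne_top_of_le_ne_top ?_ hle
  have : ∑' a, ∑' b, (nbrMass G x a * nbrMass G y b) * (G.dist a b : ℝ≥0∞) =
      ((S.card : ℕ) : ℝ≥0∞)⁻¹ * ∑ s ∈ S, (((S.card : ℕ) : ℝ≥0∞)⁻¹ *
        ∑ t ∈ S, (G.dist (x * s) (y * t) : ℝ≥0∞)) := by
    rw [← tsum_nbrMass h1 hsymm x (fun a => ((S.card : ℕ) : ℝ≥0∞)⁻¹ *
        ∑ t ∈ S, (G.dist a (y * t) : ℝ≥0∞))]
    congr 1; ext a
    rw [← tsum_nbrMass h1 hsymm y (fun b => (G.dist a b : ℝ≥0∞)), ← ENNReal.tsum_mul_left]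
    congr 1; ext b
    rw [mul_assoc]
  rw [this]
  have hinv : ((S.card : ℕ) : ℝ≥0∞)⁻¹ ≠ ⊤ := ENNReal.inv_ne_top.2 hc0
  refine ENNReal.mul_ne_top hinv ?_
  rw [ENNReal.sum_ne_top]
  intro s _
  refine ENNReal.mul_ne_top hinv ?_
  rw [ENNReal.sum_ne_top]
  intro t _
  simp

/-- Nonnegative curvature on the edges implies that averaging preserves `Lip`. -/
lemma avg_lip (h1 : (1 : Γ) ∉ S) (hsymm : ∀ s ∈ S, s⁻¹ ∈ S)
    (hgen : Subgroup.closure (S : Set Γ) = ⊤) (hS : S.Nonempty)
    (hk : ∀ x y, (SimpleGraph.mulCayley (S : Set Γ)).Adj x y →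
      0 ≤ kappa (SimpleGraph.mulCayley (S : Set Γ)) x y)
    {f : Γ → ℝ} (hf : Lip S f) : Lip S (avg S f) := by
  classical
  intro x s hs
  set G := SimpleGraph.mulCayley (S : Set Γ) with hGdef
  have hadj : G.Adj x (x * s) := by
    rw [hGdef, adj_iff h1 hsymm]; simpa using hs
  have hconn : G.Connected := connected hgen h1 hsymm
  have hW : W1 G (nbrMass G x) (nbrMass G (x * s)) ≤ 1 := by
    have h := hk _ _ hadj
    unfold kappa at h
    have hd : G.dist x (x * s) = 1 := SimpleGraph.dist_eq_one_iff_adj.2 hadj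
    rw [hd] at h
    simp only [Nat.cast_one, div_one, sub_nonneg] at h
    have ht := W1_ne_top h1 hsymm hS x (x * s)
    rw [← ENNReal.ofReal_toReal ht]
    simpa using ENNReal.ofReal_le_ofReal h
  -- shift `f` to be nonnegative where needed
  obtain ⟨C, hC⟩ : ∃ C : ℝ, ∀ t ∈ S, 0 ≤ f (x * t) + C ∧ 0 ≤ f (x * s * t) + C := by
    refine ⟨∑ t ∈ S, (|f (x * t)| + |f (x * s * t)|), fun t ht => ?_⟩
    have hle : |f (x * t)| + |f (x * s * t)| ≤ ∑ t ∈ S, (|f (x * t)| + |f (x * s * t)|) :=
      Finset.single_le_sum (f := fun t => |f (x * t)| + |f (x * s * t)|)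
        (fun i _ => by positivity) ht
    have h1 := neg_abs_le (f (x * t))
    have h2 := neg_abs_le (f (x * s * t))
    have h3 := abs_nonneg (f (x * t))
    have h4 := abs_nonneg (f (x * s * t))
    constructor <;> linarith
  let F : Γ → ℝ≥0∞ := fun v => ENNReal.ofReal (f v + C)
  have hF : ∀ a b, G.Adj a b → F b ≤ F a + 1 := by
    intro a b hab
    have hmem := (adj_iff h1 hsymm a b).1 hab
    have := hf a _ hmem
    rw [mul_inv_cancel_left] at this
    show ENNReal.ofReal (f b + C) ≤ ENNReal.ofReal (f a + C) + 1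
    calc ENNReal.ofReal (f b + C) ≤ ENNReal.ofReal ((f a + C) + 1) :=
          ENNReal.ofReal_le_ofReal (by linarith)
      _ ≤ ENNReal.ofReal (f a + C) + ENNReal.ofReal 1 := ENNReal.ofReal_add_le
      _ = ENNReal.ofReal (f a + C) + 1 := by simp
  have hdual := dual_W1 hconn hF (μ := nbrMass G x) (ν := nbrMass G (x * s))
  rw [tsum_nbrMass h1 hsymm, tsum_nbrMass h1 hsymm] at hdual
  have hn : (0 : ℝ) < S.card := by exact_mod_cast hS.card_pos
  have hsum : ∀ y : Γ, (∀ t ∈ S, 0 ≤ f (y * t) + C) →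
      ((S.card : ℕ) : ℝ≥0∞)⁻¹ * ∑ t ∈ S, F (y * t) = ENNReal.ofReal (avg S f y + C) := by
    intro y hy
    have : ∑ t ∈ S, F (y * t) = ENNReal.ofReal (∑ t ∈ S, (f (y * t) + C)) :=
      (ENNReal.ofReal_sum_of_nonneg hy).symm
    rw [this, ← ENNReal.ofReal_natCast, ← ENNReal.ofReal_inv_of_pos hn,
      ← ENNReal.ofReal_mul (by positivity)]
    congr 1
    unfold avg
    rw [Finset.sum_add_distrib, Finset.sum_const, nsmul_eq_mul]
    field_simp
  rw [hsum _ (fun t ht => (hC t ht).2), hsum _ (fun t ht => (hC t ht).1)] at hdual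
  have hle : ENNReal.ofReal (avg S f (x * s) + C) ≤ ENNReal.ofReal (avg S f x + C + 1) := by
    have hnn : 0 ≤ avg S f x + C := by
      have : avg S f x + C = (∑ t ∈ S, (f (x * t) + C)) / S.card := by
        unfold avg
        rw [Finset.sum_add_distrib, Finset.sum_const, nsmul_eq_mul]
        field_simp
      rw [this]
      exact div_nonneg (Finset.sum_nonneg fun t ht => (hC t ht).1) hn.le
    calc ENNReal.ofReal (avg S f (x * s) + C)
        ≤ ENNReal.ofReal (avg S f x + C) + W1 G (nbrMass G x) (nbrMass G (x * s)) := hdual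
      _ ≤ ENNReal.ofReal (avg S f x + C) + 1 := by gcongr
      _ = ENNReal.ofReal (avg S f x + C + 1) := by
        rw [ENNReal.ofReal_add hnn zero_le_one, ENNReal.ofReal_one]
  have hnn1 : 0 ≤ avg S f x + C + 1 := by
    have : avg S f x + C = (∑ t ∈ S, (f (x * t) + C)) / S.card := by
      unfold avg
      rw [Finset.sum_add_distrib, Finset.sum_const, nsmul_eq_mul]
      field_simp
    rw [this]
    have := div_nonneg (Finset.sum_nonneg fun t ht => (hC t ht).1) hn.le
    linarith
  have := (ENNReal.ofReal_le_ofReal_iff hnn1).1 hle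
  linarith

lemma iter_lip (h1 : (1 : Γ) ∉ S) (hsymm : ∀ s ∈ S, s⁻¹ ∈ S)
    (hgen : Subgroup.closure (S : Set Γ) = ⊤) (hS : S.Nonempty)
    (hk : ∀ x y, (SimpleGraph.mulCayley (S : Set Γ)).Adj x y →
      0 ≤ kappa (SimpleGraph.mulCayley (S : Set Γ)) x y)
    {f : Γ → ℝ} (hf : Lip S f) (n : ℕ) : Lip S ((avg S)^[n] f) := by
  induction n with
  | zero => exact hf
  | succ n ih =>
    rw [Function.iterate_succ_apply']
    exact avg_lip h1 hsymm hgen hS hk ih

/-- Iterated averages of a nonnegative function are positive where a point of positive value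
can be reached. -/
lemma iter_pos {u : Γ → ℝ} (hu : ∀ g, 0 ≤ u g) {s : Γ} (hs : s ∈ S) (n : ℕ) :
    (∀ g, 0 ≤ (avg S)^[n] u g) ∧ ∀ g, 0 < u (g * s ^ n) → 0 < (avg S)^[n] u g := by
  have hn : (0 : ℝ) < S.card := by exact_mod_cast Finset.card_pos.2 ⟨s, hs⟩
  induction n with
  | zero => exact ⟨hu, fun g hg => by simpa using hg⟩
  | succ n ih =>
    rw [Function.iterate_succ_apply']
    refine ⟨fun g => div_nonneg (Finset.sum_nonneg fun t _ => ih.1 _) hn.le, fun g hg => ?_⟩
    refine div_pos ?_ hn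
    refine Finset.sum_pos' (fun t _ => ih.1 _) ⟨s, hs, ih.2 _ ?_⟩
    rwa [mul_assoc, ← pow_succ']

lemma iter_shift (f : Γ → ℝ) (v : Γ) (hS : S.Nonempty) (n : ℕ) (g : Γ) :
    (avg S)^[n] (fun x => f (v * x) - f x - 1) g =
      (avg S)^[n] f (v * g) - (avg S)^[n] f g - 1 := by
  have hn : (0 : ℝ) < S.card := by exact_mod_cast hS.card_pos
  induction n generalizing g with
  | zero => rfl
  | succ n ih =>
    rw [Function.iterate_succ_apply', Function.iterate_succ_apply']
    unfold avg at ih ⊢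
    simp only [ih, mul_assoc]
    rw [Finset.sum_sub_distrib, Finset.sum_sub_distrib, Finset.sum_const, nsmul_eq_mul]
    field_simp

end cayley

/-! ### The Heisenberg group -/

section heis

/-- The entry at position `(0, 1)`. -/
def cX (g : Heisenberg) : ℤ := (g : Matrix.SpecialLinearGroup (Fin 3) ℤ) 0 1
/-- The entry at position `(1, 2)`. -/
def cY (g : Heisenberg) : ℤ := (g : Matrix.SpecialLinearGroup (Fin 3) ℤ) 1 2
/-- The entry at position `(0, 2)`. -/
def cZ (g : Heisenberg) : ℤ := (g : Matrix.SpecialLinearGroup (Fin 3) ℤ) 0 2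

lemma cX_mul (a b : Heisenberg) : cX (a * b) = cX a + cX b := by
  have a00 := a.2.1 0
  have b11 := b.2.1 1
  have b21 := b.2.2 2 1 (by decide)
  simp only [cX, Subgroup.coe_mul, Matrix.SpecialLinearGroup.coe_mul, Matrix.mul_apply,
    Fin.sum_univ_three, a00, b11, b21]
  ring

lemma cY_mul (a b : Heisenberg) : cY (a * b) = cY a + cY b := by
  have a10 := a.2.2 1 0 (by decide)
  have a11 := a.2.1 1
  have b22 := b.2.1 2
  simp only [cY, Subgroup.coe_mul, Matrix.SpecialLinearGroup.coe_mul, Matrix.mul_apply,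
    Fin.sum_univ_three, a10, a11, b22]
  ring

lemma cZ_mul (a b : Heisenberg) : cZ (a * b) = cZ a + cZ b + cX a * cY b := by
  have a00 := a.2.1 0
  have b22 := b.2.1 2
  simp only [cX, cY, cZ, Subgroup.coe_mul, Matrix.SpecialLinearGroup.coe_mul, Matrix.mul_apply,
    Fin.sum_univ_three, a00, b22]
  ring

/-- The element with entries `x, y, z` above the diagonal. -/
def mkH (x y z : ℤ) : Heisenberg :=
  ⟨⟨!![1, x, z; 0, 1, y; 0, 0, 1], by simp [Matrix.det_fin_three]⟩, by
    refine ⟨fun i => ?_, fun i j hij => ?_⟩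
    · fin_cases i <;> simp
    · fin_cases i <;> fin_cases j <;> simp_all⟩

lemma cX_mkH (x y z : ℤ) : cX (mkH x y z) = x := by simp [cX, mkH]
lemma cY_mkH (x y z : ℤ) : cY (mkH x y z) = y := by simp [cY, mkH]

lemma vanish {S : Finset Heisenberg} (hgen : Subgroup.closure (S : Set Heisenberg) = ⊤)
    {φ : Heisenberg → ℤ} (hφ : ∀ a b, φ (a * b) = φ a + φ b) (h : ∀ s ∈ S, φ s = 0)
    (g : Heisenberg) : φ g = 0 := by
  have h0 : φ 1 = 0 := by
    have := hφ 1 1
    simp at this
    exact this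
  have hg : g ∈ Subgroup.closure (S : Set Heisenberg) := by rw [hgen]; trivial
  induction hg using Subgroup.closure_induction with
  | mem s hs => exact h s hs
  | one => exact h0
  | mul a b _ _ ha hb => rw [hφ, ha, hb]; rfl
  | inv a _ ha =>
    have := hφ a a⁻¹
    rw [mul_inv_cancel, h0, ha] at this
    linarith

lemma add_pow {φ : Heisenberg → ℤ} (hφ : ∀ a b, φ (a * b) = φ a + φ b) (g : Heisenberg)
    (n : ℕ) : φ (g ^ n) = n * φ g := by
  induction n with
  | zero =>
    have := hφ 1 1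
    simp at this
    simp [this]
  | succ n ih => rw [pow_succ, hφ, ih]; push_cast; ring

lemma add_inv {φ : Heisenberg → ℤ} (hφ : ∀ a b, φ (a * b) = φ a + φ b) (g : Heisenberg) :
    φ g⁻¹ = - φ g := by
  have h1 := hφ 1 1
  simp at h1
  have := hφ g g⁻¹
  rw [mul_inv_cancel, h1] at this
  linarith

/-- **Main theorem.** For every finite symmetric generating set `S` of the discrete Heisenberg
group `H` (with `e ∉ S`), the Cayley graph `Cay(H, S)` has adjacent vertices `x, y` with
negative Ollivier–Ricci curvature. -/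
theorem main (S : Finset Heisenberg) (h1 : (1 : Heisenberg) ∉ S)
    (hsymm : ∀ s ∈ S, s⁻¹ ∈ S) (hgen : Subgroup.closure (S : Set Heisenberg) = ⊤) :
    ∃ x y : Heisenberg, (SimpleGraph.mulCayley (S : Set Heisenberg)).Adj x y ∧
      kappa (SimpleGraph.mulCayley (S : Set Heisenberg)) x y < 0 := by
  by_contra hcon
  push Not at hcon
  -- `S` is nonempty
  have hS : S.Nonempty := by
    by_contra hne
    rw [Finset.not_nonempty_iff_eq_empty] at hne
    have := vanish hgen (φ := cX) cX_mul (by simp [hne]) (mkH 1 0 0)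
    rw [cX_mkH] at this
    exact one_ne_zero this
  -- bound for the `Y` entries
  obtain ⟨B0, hB0⟩ : ∃ B0 : ℤ, ∀ s ∈ S, |cY s| ≤ B0 :=
    ⟨∑ s ∈ S, |cY s|, fun s hs => Finset.single_le_sum (f := fun s => |cY s|)
      (fun i _ => abs_nonneg _) hs⟩
  set N : ℤ := 2 * B0 + 1 with hN
  let k : Heisenberg → ℤ := fun g => N * cX g + cY g
  have hk : ∀ a b, k (a * b) = k a + k b := by
    intro a b; simp only [k, cX_mul, cY_mul]; ring
  obtain ⟨v, hvS, hvmax⟩ := Finset.exists_max_image S k hS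
  set K : ℤ := k v with hK
  have hKpos : 0 < K := by
    by_contra hle
    push Not at hle
    have hz : ∀ s ∈ S, k s = 0 := by
      intro s hs
      have a1 := hvmax s hs
      have a2 := hvmax _ (hsymm s hs)
      rw [add_inv hk] at a2
      omega
    have := vanish hgen hk hz (mkH 0 1 0)
    simp only [k, cX_mkH, cY_mkH] at this
    omega
  -- only the elements over the same point of the abelianization attain the maximum
  have hF : ∀ s ∈ S, k s = K → cX s = cX v ∧ cY s = cY v := by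
    intro s hs hsk
    have b1 := abs_le.1 (hB0 s hs)
    have b2 := abs_le.1 (hB0 v hvS)
    have e : N * (cX s - cX v) = cY v - cY s := by
      have : N * cX s + cY s = N * cX v + cY v := hsk
      linarith
    have hX : cX s - cX v = 0 := by
      by_contra hne
      rcases lt_or_gt_of_ne hne with hlt | hgt
      · have : N * (cX s - cX v) ≤ N * (-1) := by
          apply mul_le_mul_of_nonneg_left <;> omega
        omega
      · have : N * 1 ≤ N * (cX s - cX v) := by
          apply mul_le_mul_of_nonneg_left <;> omega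
        omega
    rw [hX, mul_zero] at e
    constructor <;> omega
  -- the symplectic form with `v`
  let w : Heisenberg → ℤ := fun g => cX g * cY v - cY g * cX v
  have hw : ∀ a b, w (a * b) = w a + w b := by
    intro a b; simp only [w, cX_mul, cY_mul]; ring
  have hwv : w v = 0 := by simp only [w]; ring
  obtain ⟨s1, hs1S, hs1⟩ : ∃ s ∈ S, 0 < w s := by
    by_contra hno
    push Not at hno
    have hz : ∀ s ∈ S, w s = 0 := by
      intro s hs
      have a1 := hno s hs
      have a2 := hno _ (hsymm s hs)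
      rw [add_inv hw] at a2
      omega
    have e1 := vanish hgen hw hz (mkH 1 0 0)
    have e2 := vanish hgen hw hz (mkH 0 1 0)
    simp only [w, cX_mkH, cY_mkH] at e1 e2
    have e3 : cX v = 0 := by linarith
    have e4 : cY v = 0 := by linarith
    have : K = N * cX v + cY v := rfl
    rw [e3, e4] at this
    omega
  -- the quadratic coordinate
  let z : Heisenberg → ℤ := fun g => 2 * cZ g - cX g * cY g
  have hz : ∀ a b, z (a * b) = z a + z b + (cX a * cY b - cX b * cY a) := by
    intro a b; simp only [z, cX_mul, cY_mul, cZ_mul]; ring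
  obtain ⟨B, hB⟩ : ∃ B : ℤ, ∀ s ∈ S, |z s| ≤ B :=
    ⟨∑ s ∈ S, |z s|, fun s hs => Finset.single_le_sum (f := fun s => |z s|)
      (fun i _ => abs_nonneg _) hs⟩
  have hBnn : 0 ≤ B := (abs_nonneg _).trans (hB v hvS)
  obtain ⟨n, hn⟩ : ∃ n : ℕ, (n : ℤ) = B + 1 := ⟨(B + 1).toNat, by omega⟩
  set g1 : Heisenberg := s1 ^ n with hg1
  set c : ℤ := w g1 with hc
  have hcB : B < c := by
    have : c = n * w s1 := add_pow hw s1 n
    rw [this, hn]
    nlinarith
  -- the test function
  let h : Heisenberg → ℤ := fun g => -K * z g + (c - B) * k g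
  have hstep : ∀ g, ∀ s ∈ S, k s = K → w g = c → h (g * s) ≤ h g := by
    intro g s hs hsk hgc
    obtain ⟨hx, hy⟩ := hF s hs hsk
    have e1 : z (g * s) = z g + z s + w g := by
      rw [hz, hx, hy]; simp only [w]; ring
    have e2 : h (g * s) = h g - K * (B + z s) := by
      simp only [h, e1, hk, hgc, hsk]; ring
    have := abs_le.1 (hB s hs)
    rw [e2]
    nlinarith
  have hjump : ∀ g, w g = c → h g < h (v * g) := by
    intro g hgc
    have e1 : z (v * g) = z v + z g - w g := by
      rw [hz]; simp only [w]; ring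
    have e2 : h (v * g) = h g + K * (2 * c - B - z v) := by
      simp only [h, e1, hk, hgc, ← hK]; ring
    have := abs_le.1 (hB v hvS)
    rw [e2]
    nlinarith
  obtain ⟨L, hLpos, hL1, hL2⟩ : ∃ L : ℝ, 0 < L ∧ |(h g1 : ℝ)| ≤ L ∧ |(h (v * g1) : ℝ)| ≤ L :=
    ⟨|(h g1 : ℝ)| + |(h (v * g1) : ℝ)| + 1, by positivity,
      by have := abs_nonneg (h (v * g1) : ℝ); linarith,
      by have := abs_nonneg (h g1 : ℝ); linarith⟩
  have hKR : (0 : ℝ) < K := by exact_mod_cast hKpos
  set ε : ℝ := 1 / (2 * L * K) with hε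
  have hεpos : 0 < ε := by positivity
  have hεL : ε * (2 * L) = 1 / K := by rw [hε]; field_simp
  let cl : Heisenberg → ℝ := fun g => if w g = c then max (-L) (min L (h g : ℝ)) else 0
  have hcl : ∀ g, -L ≤ cl g ∧ cl g ≤ L := by
    intro g
    simp only [cl]
    split_ifs
    · exact ⟨le_max_left _ _, max_le (by linarith) (min_le_left _ _)⟩
    · exact ⟨by linarith, hLpos.le⟩
  let f : Heisenberg → ℝ := fun g => (k g : ℝ) / K + ε * cl g
  have hLip : Lip S f := by
    intro g s hs
    have hkle : k s ≤ K := hvmax s hs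
    simp only [f, hk, Int.cast_add, add_div]
    rcases eq_or_lt_of_le hkle with hEq | hLt
    · -- the maximal generators
      obtain ⟨hx, hy⟩ := hF s hs hEq
      have hws : w (g * s) = w g := by
        rw [hw]
        have : w s = 0 := by simp only [w, hx, hy]; ring
        omega
      have hcle : cl (g * s) ≤ cl g := by
        simp only [cl, hws]
        split_ifs with hgc
        · have : (h (g * s) : ℝ) ≤ (h g : ℝ) := by exact_mod_cast hstep g s hs hEq hgc
          exact max_le_max le_rfl (min_le_min le_rfl this)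
        · exact le_rfl
      have h2 : (k s : ℝ) / K = 1 := by rw [hEq]; field_simp
      have h3 := mul_le_mul_of_nonneg_left hcle hεpos.le
      linarith
    · have hk1 : (k s : ℝ) ≤ K - 1 := by
        have : k s ≤ K - 1 := by omega
        exact_mod_cast this
      have h2 : (k s : ℝ) / K ≤ 1 - 1 / K := by
        rw [div_le_iff₀ hKR]
        field_simp
        linarith
      have h3 : ε * (cl (g * s) - cl g) ≤ ε * (2 * L) := by
        apply mul_le_mul_of_nonneg_left _ hεpos.le
        have := (hcl (g * s)).2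
        have := (hcl g).1
        linarith
      rw [hεL] at h3
      linarith
  -- the contradiction
  have hu : ∀ g, f (v * g) - f g - 1 = ε * (cl (v * g) - cl g) := by
    intro g
    simp only [f, hk, Int.cast_add, add_div]
    have h2 : (k v : ℝ) / K = 1 := by rw [← hK]; field_simp
    rw [h2]; ring
  have hwvg : ∀ g, w (v * g) = w g := by intro g; rw [hw, hwv]; ring
  have hunn : ∀ g, 0 ≤ (fun x => f (v * x) - f x - 1) g := by
    intro g
    simp only
    rw [hu]
    apply mul_nonneg hεpos.le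
    simp only [cl, hwvg]
    split_ifs with hgc
    · have : (h g : ℝ) ≤ (h (v * g) : ℝ) := by exact_mod_cast (hjump g hgc).le
      have := max_le_max (le_refl (-L)) (min_le_min (le_refl L) this)
      linarith
    · simp
  have hupos : 0 < (fun x => f (v * x) - f x - 1) (1 * s1 ^ n) := by
    simp only [one_mul]
    rw [← hg1, hu]
    apply mul_pos hεpos
    have hlt : (h g1 : ℝ) < (h (v * g1) : ℝ) := by exact_mod_cast hjump g1 rfl
    have b1 := abs_le.1 hL1
    have b2 := abs_le.1 hL2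
    simp only [cl, hwvg, ← hc, if_true]
    rw [min_eq_right b1.2, min_eq_right b2.2, max_eq_right b1.1, max_eq_right b2.1]
    linarith
  have hpos := (iter_pos (S := S) hunn hs1S n).2 1 hupos
  rw [iter_shift f v hS n 1] at hpos
  have hle := iter_lip h1 hsymm hgen hS hcon hLip n 1 v hvS
  rw [one_mul] at hle
  rw [mul_one] at hpos
  linarith

end heis

end Pool.Agent.MP_d3a611_gt
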